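import Pool.Agent.H695R3.SF.N0
import Pool.Agent.H695R3.SF.N1
import Pool.Agent.H695R3.SF.N2
import Pool.Agent.H695R3.SF.N3
import Pool.Agent.H695R3.SF.A1
import Pool.Agent.H695R3.SF.A2
import Pool.Agent.H695R3.SF.P1a
import Pool.Agent.H695R3.SF.P1
import Pool.Agent.H695R3.SF.A
import Pool.Agent.H695R3.SF.B1
import Pool.Agent.H695R3.SF.B2a
import Pool.Agent.H695R3.SF.B2
import Pool.Agent.H695R3.SF.B3a
import Pool.Agent.H695R3.SF.B3b
import Pool.Agent.H695R3.SF.B3
import Pool.Agent.H695R3.SF.B4
import Pool.Agent.H695R3.SF.B5
import Pool.Agent.H695R3.SF.B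
import Pool.Agent.H695R3.SF.C1
import Pool.Agent.H695R3.SF.C2
import Pool.Agent.H695R3.SF.C3a
import Pool.Agent.H695R3.SF.C3b
import Pool.Agent.H695R3.SF.C3
import Pool.Agent.H695R3.SF.C4
import Pool.Agent.H695R3.SF.DFix
import Pool.Agent.H695R3.SF.MN
import Pool.Agent.H695R3.SF.E1Fix
import Pool.Agent.H695R3.SF.E2
import Pool.Agent.H695R3.SF.E4
import Pool.Agent.H695R3.SF.E
import Pool.Agent.H695R3.SF.CARD
import Pool.Agent.H695R3.SF.E3
import Pool.Agent.H695R3.SF.TOOL
import Pool.Agent.H695R3.SF.SE
import Pool.Agent.H695R3.SF.SD
import Pool.Agent.H695R3.SF.SC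
import Pool.Agent.H695R3.SF.SB
import Pool.Agent.H695R3.SF.SA
import Pool.Agent.H695R3.SF.T1
import Pool.Agent.H695R3.SF.T2
import Pool.Agent.H695R3.SF.T3
import Pool.Agent.H695R3.SF.T4
import Pool.Agent.H695R3.SF.T5
import Pool.Agent.H695R3.SF.T6
import Pool.Agent.H695R3.SF.S0
import Pool.Agent.H695R3.SF.SZ
import Pool.Agent.H695R3.SF.M5
import Pool.Agent.H695R3.SF.M6
import Pool.Agent.H695R3.SF.M7
import Pool.Agent.H695R3.SF.M8
import Pool.Agent.H695R3.SF.M9
import Pool.Agent.H695R3.SF.M10
import Pool.Agent.H695R3.SF.MF
import Pool.Agent.H695R3.SF.HF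

/-!
# #SUBFORESTS is #P-complete

`numSub` (`Pool/Agent/H695R3/SF/Defs2.lean`) is the function #SUBFORESTS: the input is a list of
vertices and a list of edges, the value is the number of isomorphism classes of the spanning
subgraphs of the tree with these vertices and edges (`0` if the lists do not describe a tree).
`strFn numSub` is this function on bit strings (codes of the inputs).  `SharpPHard` and
`InFPSharpP` (`Pool/Agent/H527R2/SharpP.lean`) are hardness for `#P` under polynomial-time Turing
reductions and membership in `FP^#P`.

Idea of the hardness proof.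
(A) If `x` pendant vertices are attached to every vertex of a graph `G` with `m` vertices, then the
`m`-th difference (in `x`) of the number of unlabelled spanning subgraphs is the number of graphs on
the vertex set of `G` isomorphic to a subgraph of `G`.
(B) If `R` pendant vertices are attached to a root, this number is `2 ^ R A(R) + B(R)` with
polynomials `A`, `B`, and the leading coefficient of `A` counts the graphs in which every vertex but
the root has a neighbour different from the root; this forces all pendant edges to be present, so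
that numbers of pendant vertices are labels.
(C) Hence one can count, with weights, the families of sets of labels which are dominated (up to a
permutation of the blocks) by a given family `A`; (D) differences in the number of empty blocks
make all sets nonempty.
(E) The blocks are the rows and columns of a 0-1 matrix and `g` additional blocks `{e}` for each one
`e`; the count is a polynomial in `g`, and its value at `g = -2`, divided by the largest common power
of `g + 2`, is, up to a known factor, the permanent.

Membership: Burnside's lemma and `#·NP ⊆ FP^#P` (proved here).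
-/

namespace Pool.Agent.Results.MP_17af9c_lc.SubforestsComplete

open Pool.Agent.NPC Pool.Agent.NPC.Cnt Pool.Agent.H695R3.SF

/-- **Main theorem.** #SUBFORESTS is #P-complete: it is #P-hard and lies in FP^#P. -/
theorem result : SharpPHard (strFn numSub) ∧ InFPSharpP (strFn numSub) := by
  have hA : S_A := A (A1 N0 N1 N2 N3) A2 (P1 P1a)
  have hB : S_B := B (B4 B1 (B2 B2a) (B3 B3a B3b)) B5
  have hC : S_C4 := C4 C1 C2 (C3 C3a C3b)
  have hE : S_E := E (E2 (E1 MN)) E4
  exact ⟨HF (SE hE E3 CARD TOOL) (SD D CARD TOOL) (SC hC CARD TOOL) (SB hB CARD TOOL)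
    (SA hA CARD TOOL) (S0 CARD T1 T2 T3 T4 T5 T6) SZ,
    MF M5 M6 M7 M8 M9 (M10 M8) T6⟩

end Pool.Agent.Results.MP_17af9c_lc.SubforestsComplete
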